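import Pool.Agent.Y649.DG.Defs
import Pool.Agent.TH697.Form.OuMvDefs

set_option autoImplicit false

/-! # Boolean products `u_iᵀ M v_i` by one determinant close to the identity -/

namespace Pool.Agent.U737.DO

open Finset Matrix Filter Topology
open Pool.Agent.Y649.DG
open Pool.Agent.TH697.Form.OuMv (Item ouMv)

variable {n : ℕ}

/-- a bit as a number -/
def br (b : Bool) : ℝ := if b then 1 else 0

theorem br_nonneg (b : Bool) : 0 ≤ br b := by
  unfold br
  split_ifs <;> norm_num

/-- the matrix of all products `u_iᵀ M v_i'` -/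
def prodM (U M V : Fin n → Fin n → Bool) : Matrix (Fin n) (Fin n) ℝ :=
  (Matrix.of fun i j => br (U i j)) * (Matrix.of fun j k => br (M j k)) *
    (Matrix.of fun k i => br (V i k))

theorem trace_prodM (U M V : Fin n → Fin n → Bool) :
    (prodM U M V).trace = ∑ i, ∑ k, ∑ j, br (U i j) * br (M j k) * br (V i k) := by
  unfold prodM Matrix.trace
  refine sum_congr rfl fun i _ => ?_
  rw [Matrix.diag_apply, Matrix.mul_apply]
  refine sum_congr rfl fun k _ => ?_
  rw [Matrix.mul_apply, sum_mul]
  rfl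

theorem trace_zero {U M V : Fin n → Fin n → Bool}
    (h : ¬ ∃ i j k, U i j = true ∧ M j k = true ∧ V i k = true) : (prodM U M V).trace = 0 := by
  rw [trace_prodM]
  refine sum_eq_zero fun i _ => sum_eq_zero fun k _ => sum_eq_zero fun j _ => ?_
  by_contra h1
  apply h
  refine ⟨i, j, k, ?_, ?_, ?_⟩
  · by_contra h2
    simp [br, h2] at h1
  · by_contra h2
    simp [br, h2] at h1
  · by_contra h2
    simp [br, h2] at h1

theorem one_le_trace {U M V : Fin n → Fin n → Bool}
    (h : ∃ i j k, U i j = true ∧ M j k = true ∧ V i k = true) : 1 ≤ (prodM U M V).trace := by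
  obtain ⟨i, j, k, h1, h2, h3⟩ := h
  rw [trace_prodM]
  have h0 : ∀ i k j, 0 ≤ br (U i j) * br (M j k) * br (V i k) := fun i k j =>
    mul_nonneg (mul_nonneg (br_nonneg _) (br_nonneg _)) (br_nonneg _)
  have e : (1 : ℝ) = br (U i j) * br (M j k) * br (V i k) := by
    simp [br, h1, h2, h3]
  rw [e]
  refine le_trans ?_ (single_le_sum (f := fun i => ∑ k, ∑ j, br (U i j) * br (M j k) * br (V i k))
    (fun i _ => sum_nonneg fun k _ => sum_nonneg fun j _ => h0 i k j) (mem_univ i))
  refine le_trans ?_ (single_le_sum (f := fun k => ∑ j, br (U i j) * br (M j k) * br (V i k))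
    (fun k _ => sum_nonneg fun j _ => h0 i k j) (mem_univ k))
  exact single_le_sum (f := fun j => br (U i j) * br (M j k) * br (V i k))
    (fun j _ => h0 i k j) (mem_univ j)

/-- close to the identity the determinant is one minus the trace -/
theorem exists_small (n : ℕ) : ∃ s : ℝ, 0 < s ∧ ∀ U M V : Fin n → Fin n → Bool,
    |(1 - s • prodM U M V).det - (1 - s * (prodM U M V).trace)| ≤ s / 4 := by
  have h1 : ∀ y : (Fin n → Fin n → Bool) × (Fin n → Fin n → Bool) × (Fin n → Fin n → Bool),
      ∀ᶠ s in 𝓝[>] (0 : ℝ),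
        |(1 - s • prodM y.1 y.2.1 y.2.2).det - (1 - s * (prodM y.1 y.2.1 y.2.2).trace)| ≤ s / 4 := by
    rintro ⟨U, M, V⟩
    obtain ⟨Q, hQ⟩ : ∃ Q : Polynomial ℝ, Q = (Matrix.det (1 + (Polynomial.X : Polynomial ℝ) •
      (prodM U M V).map Polynomial.C)).divX.divX := ⟨_, rfl⟩
    have h2 : ∀ s : ℝ, (1 - s • prodM U M V).det - (1 - s * (prodM U M V).trace) =
        Q.eval (-s) * s ^ 2 := by
      intro s
      have h3 := Matrix.det_one_add_smul (-s) (prodM U M V)
      rw [← hQ] at h3
      have h4 : (1 : Matrix (Fin n) (Fin n) ℝ) + (-s) • prodM U M V = 1 - s • prodM U M V := by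
        rw [neg_smul, sub_eq_add_neg]
      rw [h4] at h3
      rw [h3]
      ring
    have h5 : Tendsto (fun s : ℝ => |Q.eval (-s)| * s) (𝓝 0) (𝓝 (|Q.eval (-0)| * 0)) := by
      apply Continuous.tendsto
      fun_prop
    rw [mul_zero] at h5
    have h6 : ∀ᶠ s in 𝓝 (0 : ℝ), |Q.eval (-s)| * s < 1 / 4 :=
      h5.eventually (gt_mem_nhds (by norm_num))
    filter_upwards [h6.filter_mono nhdsWithin_le_nhds, self_mem_nhdsWithin] with s hs hs0
    have hs0' : (0 : ℝ) < s := hs0
    simp only [h2]
    rw [abs_mul, abs_of_nonneg (by positivity : (0 : ℝ) ≤ s ^ 2)]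
    have h7 : |Q.eval (-s)| * s ^ 2 = (|Q.eval (-s)| * s) * s := by ring
    rw [h7]
    nlinarith
  have h2 := (eventually_all.2 h1).and self_mem_nhdsWithin
  obtain ⟨s, hs, hs0⟩ := h2.exists
  exact ⟨s, hs0, fun U M V => hs (U, M, V)⟩

/-- the big matrix -/
def big (s : ℝ) (U M V : Fin n → Fin n → Bool) :
    Matrix ((Fin n ⊕ Fin n) ⊕ Fin n) ((Fin n ⊕ Fin n) ⊕ Fin n) ℝ :=
  Matrix.fromBlocks (Matrix.fromBlocks 1 (-(Matrix.of fun i j => br (U i j))) 0 1)
    (Matrix.fromRows 0 (-(Matrix.of fun j k => br (M j k))))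
    (Matrix.fromCols (-(s • (Matrix.of fun k i => br (V i k)))) 0) 1

theorem det_aux (s : ℝ) (A B C : Matrix (Fin n) (Fin n) ℝ) :
    (Matrix.fromBlocks (Matrix.fromBlocks 1 (-A) 0 1) (Matrix.fromRows 0 (-B))
      (Matrix.fromCols (-(s • C)) 0) 1).det = (1 - s • (A * B * C)).det := by
  rw [Matrix.det_fromBlocks_one₂₂, Matrix.fromRows_mul_fromCols]
  have h1 : (Matrix.fromBlocks 1 (-A) 0 1 : Matrix (Fin n ⊕ Fin n) (Fin n ⊕ Fin n) ℝ) -
      Matrix.fromBlocks ((0 : Matrix (Fin n) (Fin n) ℝ) * -(s • C))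
        ((0 : Matrix (Fin n) (Fin n) ℝ) * 0) ((-B) * -(s • C)) ((-B) * 0) =
      Matrix.fromBlocks 1 (-A) (-(s • (B * C))) 1 := by
    rw [sub_eq_add_neg, Matrix.fromBlocks_neg, Matrix.fromBlocks_add]
    simp
  rw [h1, Matrix.det_fromBlocks_one₂₂]
  congr 2
  rw [neg_mul_neg, Matrix.mul_smul, Matrix.mul_assoc]

theorem det_big (s : ℝ) (U M V : Fin n → Fin n → Bool) :
    (big s U M V).det = (1 - s • prodM U M V).det :=
  det_aux s _ _ _

/-- the formulas in the big matrix -/
def entry (s : ℝ) (w q : ℕ) : (Fin n ⊕ Fin n) ⊕ Fin n → (Fin n ⊕ Fin n) ⊕ Fin n →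
    Fml (Option (Fin n)) (Item n n) w q
  | .inl (.inl i), .inl (.inl i') => .const (if i = i' then 1 else 0)
  | .inl (.inl i), .inl (.inr j) => .item (some i)
      (fun (v : (Fin n → Bool) × (Fin n → Bool)) => -br (v.1 j))
  | .inl (.inl _), .inr _ => .const 0
  | .inl (.inr _), .inl (.inl _) => .const 0
  | .inl (.inr j), .inl (.inr j') => .const (if j = j' then 1 else 0)
  | .inl (.inr j), .inr k => .item none (fun (M : Fin n → Fin n → Bool) => -br (M j k))
  | .inr k, .inl (.inl i) => .item (some i)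
      (fun (v : (Fin n → Bool) × (Fin n → Bool)) => -(s * br (v.2 k)))
  | .inr _, .inl (.inr _) => .const 0
  | .inr k, .inr k' => .const (if k = k' then 1 else 0)

theorem entry_eval (s : ℝ) (w q : ℕ) (x : ∀ i, Item n n i) (a b : (Fin n ⊕ Fin n) ⊕ Fin n) :
    (entry s w q a b).eval x = big s (fun i => (x (some i)).1) (x none)
      (fun i => (x (some i)).2) a b := by
  unfold big
  rcases a with (i | j) | k <;> rcases b with (i' | j') | k' <;>
    simp [entry, Fml.eval, Matrix.one_apply]

theorem entry_size (s : ℝ) (w q : ℕ) :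
    ∑ a : (Fin n ⊕ Fin n) ⊕ Fin n, ∑ b : (Fin n ⊕ Fin n) ⊕ Fin n,
      (entry s w q a b).size = 3 * n ^ 2 := by
  simp only [Fintype.sum_sum_type, entry, Fml.size, sum_const, card_univ, Fintype.card_fin,
    smul_eq_mul, mul_zero, mul_one, add_zero, zero_add]
  ring

/-- the upper bound -/
theorem upper (n w q : ℕ) : ∃ F : Fml (Option (Fin n)) (Item n n) w q, F.size ≤ 3 * n ^ 2 ∧
    ∀ x, F.accepts x = ouMv n n x := by
  classical
  obtain ⟨s, hs0, hs⟩ := exists_small n
  obtain ⟨e⟩ : Nonempty (((Fin n ⊕ Fin n) ⊕ Fin n) ≃ Fin (n + n + n)) :=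
    ⟨(finSumFinEquiv.sumCongr (Equiv.refl _)).trans finSumFinEquiv⟩
  refine ⟨.det 2 (fun a b => if a = 0 then if b = 0 then .const (1 - s / 2) else
    .det (n + n + n) (fun a b => entry s w q (e.symm a) (e.symm b)) else .const 1), ?_, fun x => ?_⟩
  · simp only [Fml.size, Fin.sum_univ_two]
    simp only [if_true, Fml.size, one_ne_zero, if_false, Fin.isValue, zero_add, add_zero]
    rw [← entry_size (n := n) s w q, ← Equiv.sum_comp e.symm]
    refine le_of_eq (sum_congr rfl fun a _ => ?_)
    exact Equiv.sum_comp e.symm (fun b => (entry s w q (e.symm a) b).size)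
  · unfold Fml.accepts ouMv
    rw [Bool.eq_iff_iff, decide_eq_true_iff, decide_eq_true_iff]
    have h1 : ((Fml.det (n + n + n) (fun a b => entry s w q (e.symm a) (e.symm b)) :
        Fml (Option (Fin n)) (Item n n) w q).eval x) =
        (1 - s • prodM (fun i => (x (some i)).1) (x none) (fun i => (x (some i)).2)).det := by
      rw [← det_big]
      simp only [Fml.eval, entry_eval]
      exact Matrix.det_submatrix_equiv_self e.symm _
    have h2 : (Fml.det 2 (fun a b => if a = 0 then if b = 0 then .const (1 - s / 2) else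
        .det (n + n + n) (fun a b => entry s w q (e.symm a) (e.symm b)) else .const 1) :
        Fml (Option (Fin n)) (Item n n) w q).eval x = (1 - s / 2) -
        (1 - s • prodM (fun i => (x (some i)).1) (x none) (fun i => (x (some i)).2)).det := by
      rw [← h1]
      rw [Fml.eval, Matrix.det_fin_two]
      simp [Fml.eval]
    rw [h2]
    have h3 := hs (fun i => (x (some i)).1) (x none) (fun i => (x (some i)).2)
    rw [abs_le] at h3
    constructor
    · intro h
      by_contra h4
      have h5 := trace_zero (U := fun i => (x (some i)).1) (M := x none)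
        (V := fun i => (x (some i)).2) h4
      rw [h5] at h3
      linarith [h3.1]
    · intro h
      have h5 := one_le_trace (U := fun i => (x (some i)).1) (M := x none)
        (V := fun i => (x (some i)).2) h
      have h6 : s ≤ s * (prodM (fun i => (x (some i)).1) (x none)
        (fun i => (x (some i)).2)).trace := le_mul_of_one_le_right hs0.le h5
      linarith [h3.2]

end Pool.Agent.U737.DO
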